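import Pool.Agent.Helper76.TB.Goals2
import Pool.Agent.Helper76.TB.Iface
import Pool.Agent.Helper54.TB.SIZE
import Pool.Agent.Helper65.TB.HB
import Pool.Agent.Helper47.TB.GZL
import Pool.Agent.Helper90.TwinR

/-!
Project TB (MP_74f661_nt), packet TB-U-SIZE2: choice of the parameters.
-/

set_option autoImplicit false

open Finset Filter Topology

namespace Pool.Agent.Helper79.TB

open Pool.Agent.Helper76.TB
open Pool.Agent.Helper54.TB (pow_div_fac exp_two_le le_exp_three)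
open Pool.Agent.Helper90.Twin (Ps Gz Sz Gz_pos Sz_mono)

/-- the first iterated square root below a threshold `T ≥ 1` -/
theorem exists_iter (r : ℕ) (T : ℝ) (hT : 1 ≤ T) : ∃ J : ℕ, ((Nat.sqrt^[J] r : ℕ) : ℝ) ≤ T ∧
    (J = 0 ∨ T < (((Nat.sqrt^[J] r : ℕ) : ℝ) + 1) ^ 2) := by
  classical
  have hex : ∃ j : ℕ, ((Nat.sqrt^[j] r : ℕ) : ℝ) ≤ T := by
    by_contra hc
    push Not at hc
    have h2 : 2 ≤ Nat.sqrt^[r] r := by
      have := hT.trans_lt (hc r)
      have h3 : 1 < Nat.sqrt^[r] r := by exact_mod_cast this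
      omega
    have h4 := Pool.Agent.Helper90.Twin.iterate_sqrt_pow_le r r
    have h5 : 2 ^ (2 ^ r) ≤ (Nat.sqrt^[r] r) ^ (2 ^ r) := Nat.pow_le_pow_left h2 _
    have h6 : r < 2 ^ r := Nat.lt_two_pow_self
    have h7 : 2 ^ r < 2 ^ (2 ^ r) := Nat.lt_two_pow_self
    omega
  refine ⟨Nat.find hex, Nat.find_spec hex, ?_⟩
  rcases Nat.eq_zero_or_pos (Nat.find hex) with h | h
  · exact Or.inl h
  · right
    obtain ⟨j, hj⟩ : ∃ j, Nat.find hex = j + 1 := ⟨Nat.find hex - 1, by omega⟩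
    have h1 : ¬ ((Nat.sqrt^[j] r : ℕ) : ℝ) ≤ T := Nat.find_min hex (by omega)
    rw [hj, Function.iterate_succ_apply']
    push Not at h1
    refine h1.trans ?_
    have h2 := Nat.lt_succ_sqrt (Nat.sqrt^[j] r)
    have h3 : Nat.sqrt^[j] r < (Nat.sqrt (Nat.sqrt^[j] r) + 1) ^ 2 := by
      rw [pow_two]
      exact h2
    exact_mod_cast h3

theorem ev_size (K : ℝ) : ∀ᶠ Z : ℕ in atTop, K * l2 Z ^ 3 ≤ Real.exp (l2 Z / 2) ∧ 1 ≤ l2 Z := by
  have t1 : Tendsto (fun Z : ℕ => l2 Z) atTop atTop :=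
    Real.tendsto_log_atTop.comp (Real.tendsto_log_atTop.comp tendsto_natCast_atTop_atTop)
  have t2 : Tendsto (fun Z : ℕ => l2 Z / 2) atTop atTop := t1.atTop_div_const (by norm_num)
  have t3 := (Real.tendsto_exp_div_pow_atTop 3).comp t2
  filter_upwards [t3.eventually_ge_atTop (8 * K), t1.eventually_ge_atTop 1] with Z h1 h2
  refine ⟨?_, h2⟩
  have h3 : 8 * K ≤ Real.exp (l2 Z / 2) / (l2 Z / 2) ^ 3 := h1
  rw [le_div_iff₀ (by positivity)] at h3
  calc K * l2 Z ^ 3 = 8 * K * (l2 Z / 2) ^ 3 := by ring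
    _ ≤ _ := h3

/-- the relative error `sgm` -/
theorem sgm_le (k : ℕ) : sgm k (300 * k + 1) ≤ Real.exp (-(228 * k)) := by
  unfold sgm
  have h1 := pow_div_fac (a := 24 * (k : ℝ)) (by positivity) (k := 300 * k + 1) (by
    have h2 := exp_two_le
    have h3 : Real.exp 2 * (24 * (k : ℝ)) ≤ 8 * (24 * k) :=
      mul_le_mul_of_nonneg_right h2 (by positivity)
    push_cast
    have h4 : (0 : ℝ) ≤ k := Nat.cast_nonneg k
    linarith)
  calc Real.exp (72 * k) * ((24 * k) ^ (300 * k + 1) / ((300 * k + 1).factorial : ℝ))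
      ≤ Real.exp (72 * k) * Real.exp (-((300 * k + 1 : ℕ) : ℝ)) :=
        mul_le_mul_of_nonneg_left h1 (Real.exp_pos _).le
    _ = Real.exp (72 * k + -((300 * k + 1 : ℕ) : ℝ)) := by rw [Real.exp_add]
    _ ≤ _ := by
        apply Real.exp_le_exp.2
        push_cast
        linarith

/-- the elementary inequalities for large `L`, with `S = exp (L / 2)`, `Λ = S ^ 2` -/
theorem elem {L S K : ℝ} (hL : 1 ≤ L) (hK : 1 ≤ K) (hS : K * L ^ 3 ≤ S) :
    K * L ^ 2 ≤ S ∧ K * L ≤ S ∧ K ≤ S ∧ 1 ≤ S := by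
  have h1 : L ≤ L ^ 2 := by nlinarith
  have h2 : L ^ 2 ≤ L ^ 3 := by nlinarith [sq_nonneg L]
  have h3 : K * L ^ 2 ≤ K * L ^ 3 := mul_le_mul_of_nonneg_left h2 (by linarith)
  have h4 : K * L ≤ K * L ^ 2 := mul_le_mul_of_nonneg_left h1 (by linarith)
  have h5 : K * 1 ≤ K * L := mul_le_mul_of_nonneg_left hL (by linarith)
  refine ⟨by linarith, by linarith, by linarith, by linarith⟩

theorem exp_neg_one_le : Real.exp (-1) ≤ 1 / 2 := by
  have h1 := Real.exp_one_gt_d9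
  have h2 : Real.exp (-1) * Real.exp 1 = 1 := by rw [← Real.exp_add]; norm_num
  have h3 := Real.exp_pos (-1)
  nlinarith

theorem seven_le_exp_two : (7 : ℝ) ≤ Real.exp 2 := by
  have h1 := Real.exp_one_gt_d9
  have h2 : Real.exp 2 = Real.exp 1 * Real.exp 1 := by
    rw [← Real.exp_add]
    norm_num
  rw [h2]
  have h3 : (2.7 : ℝ) ≤ Real.exp 1 := by linarith
  nlinarith

theorem le_sq_self' {x : ℝ} (h : 1 ≤ x) : x ≤ x ^ 2 := by nlinarith

theorem num1 {C1 L S : ℝ} (h1 : 30 ≤ C1) (hL : 1 ≤ L) (h : 40000 * (C1 + 3) * L ≤ S) :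
    1000 ≤ S := by nlinarith

theorem num2 {S : ℝ} (h : 1000 ≤ S) : 2880 ≤ S ^ 2 := by nlinarith

theorem num3 {C1 L m0 m : ℝ} (h1 : 30 ≤ C1) (hm : 100 * (C1 + 2) * L ^ 2 ≤ m0) (hmr : m = 2 * m0 + 1) :
    8 * (2 * (C1 * L) * (6 * L)) ≤ m := by
  have h2 : 0 ≤ L ^ 2 := sq_nonneg L
  have h3 : 0 ≤ C1 * L ^ 2 := mul_nonneg (by linarith) h2
  have h4 : 8 * (2 * (C1 * L) * (6 * L)) = 96 * (C1 * L ^ 2) := by ring
  rw [h4]
  linarith

theorem num4 {C1 L S : ℝ} (h1 : 30 ≤ C1) (hL : 1 ≤ L) (h : 40000 * (C1 + 3) * L ≤ S) :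
    4 * (C1 * L) + 2 ≤ S := by nlinarith

theorem num5 {C1 L S m0 m : ℝ} (hL : 1 ≤ L)
    (hm : m0 ≤ 100 * (C1 + 2) * L ^ 2 + 1) (hmr : m = 2 * m0 + 1)
    (h : 40000 * (C1 + 3) * L ^ 2 ≤ S) : 200 * m ≤ S := by
  have g5 : 1 ≤ L ^ 2 := one_le_pow₀ hL
  linarith

theorem num6 {S m : ℝ} (h : 200 * m ≤ S) (hS : 0 ≤ S) : m * (2 * S) ≤ S ^ 2 / 100 := by nlinarith

theorem num7 {C1 L m0 m : ℝ} (h1 : 30 ≤ C1) (hL : 1 ≤ L) (hm : 100 * (C1 + 2) * L ^ 2 ≤ m0)
    (hmr : m = 2 * m0 + 1) : 2 + (C1 * L + 3 * C1 * L ^ 2 + -m) ≤ -(9 * L) := by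
  have hLL := le_sq_self' hL
  have g2 : 1 ≤ L ^ 2 := one_le_pow₀ hL
  have g3 : C1 * L ≤ C1 * L ^ 2 := mul_le_mul_of_nonneg_left hLL (by linarith)
  have g4 : 0 ≤ C1 * L ^ 2 := mul_nonneg (by linarith) (by linarith)
  linarith

theorem num8 {C1 L S : ℝ} (h1 : 30 ≤ C1) (hL : 1 ≤ L) (h : 40000 * (C1 + 3) * L ^ 2 ≤ S) :
    100 * (C1 * L + 3 * C1 * L ^ 2 + 9 * L) ≤ S := by
  have hLL := le_sq_self' hL
  have g2 : 1 ≤ L ^ 2 := one_le_pow₀ hL
  have g3 : C1 * L ≤ C1 * L ^ 2 := mul_le_mul_of_nonneg_left hLL (by linarith)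
  have g4 : 0 ≤ C1 * L ^ 2 := mul_nonneg (by linarith) (by linarith)
  linarith

theorem num9 {x e : ℝ} (hx : 0 ≤ x) (he : 1 ≤ e) : x ≤ e * x := by nlinarith

theorem size2 : SIZE2G := by
  intro C0 hC0
  obtain ⟨c, C', hc, hgz⟩ := Pool.Agent.Helper47.TB.gzl
  have he2 := Real.exp_pos 2
  have he2' : 1 ≤ Real.exp 2 := Real.one_le_exp (by norm_num)
  have heC : 1 ≤ Real.exp 2 * C0 := one_le_mul_of_one_le_of_one_le he2' hC0
  obtain ⟨C1, hC1⟩ : ∃ C1 : ℝ, C1 = 101 * (Real.exp 2 * C0) + 30 := ⟨_, rfl⟩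
  have hC1' : 30 ≤ C1 := by linarith
  obtain ⟨K, hK⟩ : ∃ K : ℝ, K = 40000 * (C1 + 3) + 101 / c + 2 * C1 * |C'| + 1 := ⟨_, rfl⟩
  have hc' : 0 < 101 / c := by positivity
  have hC'' : 0 ≤ 2 * C1 * |C'| := by positivity
  have hK1 : 40000 * (C1 + 3) ≤ K := by linarith
  have hK2 : 101 / c ≤ K := by linarith
  have hK3 : 2 * C1 * |C'| ≤ K := by linarith
  have hK0 : 1 ≤ K := by linarith
  refine ⟨1 / (4800 * (Real.exp 2 * C0)), 1 / 4800, 2, by positivity, by norm_num, by norm_num, ?_⟩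
  filter_upwards [ev_size K, hgz, Pool.Agent.Helper65.TB.hb 1] with Z hZ1 hZ2 hZ3
  obtain ⟨hS, hL1⟩ := hZ1
  obtain ⟨hG1, hG2⟩ := hZ2
  obtain ⟨-, -, -, -, hSz, -⟩ := hZ3
  intro r N H hr1 hrZ hNZ hl1 hl2 hl3
  have hΛ : Real.log Z = Real.exp (l2 Z) := by
    rw [l2, Real.exp_log]
    rcases (Real.log_natCast_nonneg Z).lt_or_eq with h | h
    · exact h
    · exfalso
      rw [l2, ← h, Real.log_zero] at hL1
      linarith
  have hZpos : (0 : ℝ) < Z := by
    rcases Nat.eq_zero_or_pos Z with h | h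
    · exfalso
      have h1 := Real.exp_pos (l2 Z)
      rw [← hΛ, h, Nat.cast_zero, Real.log_zero] at h1
      exact lt_irrefl _ h1
    · exact_mod_cast h
  have hZe : (Z : ℝ) = Real.exp (Real.exp (l2 Z)) := by rw [← hΛ, Real.exp_log hZpos]
  have hG0 := Gz_pos Z
  rw [hΛ] at hr1 hNZ hG1 hG2
  unfold EU
  rw [hΛ]
  generalize hLd : l2 Z = L at *
  generalize hGd : Gz Z = G at *
  obtain ⟨S, hSd⟩ : ∃ S : ℝ, S = Real.exp (L / 2) := ⟨_, rfl⟩
  have hSS : Real.exp L = S ^ 2 := by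
    rw [hSd, ← Real.exp_nat_mul]
    congr 1
    push_cast
    ring
  rw [← hSd] at hS
  obtain ⟨s1, s2, s3, s4⟩ := elem hL1 hK0 hS
  have hS0 : 0 < S := by linarith
  have hSle : S ≤ S ^ 2 := le_sq_self' s4
  -- logarithms
  have hr0 : (0 : ℝ) < r := (Real.exp_pos _).trans_le hr1
  have hr2 : L ≤ Real.log r := by
    rw [Real.le_log_iff_exp_le hr0]
    exact hr1
  obtain ⟨n, hn⟩ : ∃ n : ℝ, Real.log N = n := ⟨_, rfl⟩
  obtain ⟨ρ, hρ⟩ : ∃ ρ : ℝ, Real.log r = ρ := ⟨_, rfl⟩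
  obtain ⟨u, hu⟩ : ∃ u : ℝ, n / ρ = u := ⟨_, rfl⟩
  rw [hρ] at hr2
  rw [hn] at hNZ
  rw [hn, hρ, hu] at hl2
  simp only [hn, hρ, hu]
  have hρ0 : 0 < ρ := by linarith
  have hnS : S ^ 2 ≤ 2 * n := by rw [← hSS]; exact hNZ
  have hn0 : 0 < n := by
    have h1 : 0 < S ^ 2 := by positivity
    linarith
  have hNpos : (0 : ℝ) < N := by
    rcases Nat.eq_zero_or_pos N with h | h
    · exfalso
      rw [h, Nat.cast_zero, Real.log_zero] at hn
      linarith
    · exact_mod_cast h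
  have hNe : (N : ℝ) = Real.exp n := by rw [← hn, Real.exp_log hNpos]
  have hre : (r : ℝ) = Real.exp ρ := by rw [← hρ, Real.exp_log hr0]
  have hnu : n = u * ρ := by rw [← hu]; field_simp
  -- lam
  obtain ⟨lam, hlam⟩ : ∃ lam : ℝ, (H : ℝ) * G = lam := ⟨_, rfl⟩
  rw [hlam] at hl1 hl2 hl3
  rw [hlam]
  have hlu : 4800 * (Real.exp 2 * C0 * lam) ≤ u := by
    have h1 : (1 / (4800 * (Real.exp 2 * C0))) * u * (4800 * (Real.exp 2 * C0)) = u := by
      field_simp
    have h2 : lam * (4800 * (Real.exp 2 * C0)) ≤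
        (1 / (4800 * (Real.exp 2 * C0))) * u * (4800 * (Real.exp 2 * C0)) :=
      mul_le_mul_of_nonneg_right hl2 (by positivity)
    rw [h1] at h2
    linarith
  have he7 := seven_le_exp_two
  have hu1 : 33600 ≤ u := by
    have h1 : 7 ≤ Real.exp 2 * C0 * lam := by
      have h2 : 7 * 1 ≤ Real.exp 2 * C0 := by
        apply mul_le_mul he7 hC0 (by norm_num) he2.le
      have h3 : 7 * 1 ≤ Real.exp 2 * C0 * lam := by
        apply mul_le_mul (by linarith) hl1 (by norm_num) (by positivity)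
      linarith
    linarith
  -- the parameter k
  obtain ⟨k, hk⟩ : ∃ k : ℕ, k = ⌊min (u / 2400) (C1 * L)⌋₊ := ⟨_, rfl⟩
  have hC1L : 30 * L ≤ C1 * L := mul_le_mul_of_nonneg_right hC1' (by linarith)
  have hmin0 : 0 ≤ min (u / 2400) (C1 * L) := le_min (by linarith) (by linarith)
  have hk1 : (k : ℝ) ≤ min (u / 2400) (C1 * L) := by rw [hk]; exact Nat.floor_le hmin0
  have hk2 : min (u / 2400) (C1 * L) < k + 1 := by rw [hk]; exact Nat.lt_floor_add_one _
  have hku : (k : ℝ) ≤ u / 2400 := hk1.trans (min_le_left _ _)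
  have hkL : (k : ℝ) ≤ C1 * L := hk1.trans (min_le_right _ _)
  have hk14 : (13 : ℝ) < k + 1 := by
    refine lt_of_lt_of_le ?_ hk2.le
    apply lt_min <;> linarith
  have hk13 : 13 ≤ k := by
    have : (12 : ℝ) < k := by linarith
    have h : 12 < k := by exact_mod_cast this
    omega
  obtain ⟨R, hR⟩ : ∃ R : ℕ, R + 2 = k := ⟨k - 2, by omega⟩
  have hRk : (R : ℝ) = k - 2 := by
    rw [← hR]
    push_cast
    ring
  -- the two cases for k - 1
  have hkey : Real.exp 2 * C0 * lam ≤ (k : ℝ) - 1 ∧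
      Real.exp (-((k : ℝ) - 1)) ≤ Real.exp (-(1 / 4800 * u)) + Real.exp (-(28 * L)) := by
    rcases le_total (u / 2400) (C1 * L) with h | h
    · rw [min_eq_left h] at hk2
      have h1 : u / 4800 ≤ (k : ℝ) - 1 := by linarith
      refine ⟨by linarith, ?_⟩
      have h2 : Real.exp (-((k : ℝ) - 1)) ≤ Real.exp (-(1 / 4800 * u)) := by
        apply Real.exp_le_exp.2
        linarith
      linarith [Real.exp_pos (-(28 * L))]
    · rw [min_eq_right h] at hk2
      have h1 : Real.exp 2 * C0 * lam ≤ Real.exp 2 * C0 * (101 * L) :=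
        mul_le_mul_of_nonneg_left hl3 (by positivity)
      have h3 : C1 * L = Real.exp 2 * C0 * (101 * L) + 30 * L := by rw [hC1]; ring
      have h4 : 0 ≤ Real.exp 2 * C0 * (101 * L) := by positivity
      refine ⟨by linarith, ?_⟩
      have h2 : Real.exp (-((k : ℝ) - 1)) ≤ Real.exp (-(28 * L)) := by
        apply Real.exp_le_exp.2
        linarith
      linarith [Real.exp_pos (-(1 / 4800 * u))]
  obtain ⟨hkl, hke⟩ := hkey
  have h6L : 1 / Real.exp L ^ 6 = Real.exp (-(6 * L)) := by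
    rw [← Real.exp_nat_mul, one_div, ← Real.exp_neg]
    norm_num
  have hke' : Real.exp (-((k : ℝ) - 1)) ≤ 2 * (Real.exp (-(1 / 4800 * u)) + 1 / Real.exp L ^ 6) := by
    rw [h6L]
    have h1 : Real.exp (-(28 * L)) ≤ Real.exp (-(6 * L)) := by
      apply Real.exp_le_exp.2
      linarith
    have h2 := Real.exp_pos (-(1 / 4800 * u))
    have h3 := Real.exp_pos (-(6 * L))
    linarith
  have hsg := sgm_le k
  have hK40 : 40000 * (C1 + 3) * L ^ 2 ≤ S :=
    (mul_le_mul_of_nonneg_right hK1 (by positivity)).trans s1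
  have hK41 : 40000 * (C1 + 3) * L ≤ S :=
    (mul_le_mul_of_nonneg_right hK1 (by linarith)).trans s2
  have hLL : L ≤ L ^ 2 := le_sq_self' hL1
  have hS4 : (1000 : ℝ) ≤ S := num1 hC1' hL1 hK41
  have hexp1 := exp_neg_one_le
  have hsg2 : sgm k (300 * k + 1) ≤ 1 / 2 := by
    refine hsg.trans (le_trans (Real.exp_le_exp.2 ?_) hexp1)
    linarith
  -- H
  have hH0 : (0 : ℝ) ≤ H := Nat.cast_nonneg H
  have hSS2 : Real.exp L ^ 2 = S ^ 4 := by rw [hSS]; ring
  rw [hSS2] at hG1 hG2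
  have hHlow : 2 * (k : ℝ) ≤ H := by
    have h1 : S ^ 4 ≤ H * |C'| := by
      calc S ^ 4 = 1 * S ^ 4 := by ring
        _ ≤ lam * S ^ 4 := mul_le_mul_of_nonneg_right hl1 (by positivity)
        _ = H * (G * S ^ 4) := by rw [← hlam]; ring
        _ ≤ H * C' := mul_le_mul_of_nonneg_left hG2 hH0
        _ ≤ H * |C'| := mul_le_mul_of_nonneg_left (le_abs_self _) hH0
    have h2 : 0 < |C'| := by
      have h3 : 0 < C' := by
        refine lt_of_lt_of_le ?_ hG2
        positivity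
      exact abs_pos.2 h3.ne'
    have h3 : 2 * C1 * L * |C'| ≤ S := by
      have h4 : 2 * C1 * |C'| * L ≤ K * L := mul_le_mul_of_nonneg_right hK3 (by linarith)
      linarith
    have h4 : S ≤ S ^ 4 := le_self_pow₀ s4 (by norm_num)
    have h5 : 2 * C1 * L * |C'| ≤ H * |C'| := by linarith
    have h6 : 2 * C1 * L ≤ H := le_of_mul_le_mul_right h5 h2
    linarith
  have hHup : (H : ℝ) ≤ Real.exp (3 * L) := by
    have h1 : (H : ℝ) * c ≤ 101 * L * S ^ 4 := by
      calc (H : ℝ) * c ≤ H * (G * S ^ 4) := mul_le_mul_of_nonneg_left hG1 hH0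
        _ = lam * S ^ 4 := by rw [← hlam]; ring
        _ ≤ 101 * L * S ^ 4 := mul_le_mul_of_nonneg_right hl3 (by positivity)
    have h2 : (H : ℝ) ≤ 101 / c * L * S ^ 4 := by
      have h3 : (101 / c * L * S ^ 4) * c = 101 * L * S ^ 4 := by field_simp
      rw [← h3] at h1
      exact le_of_mul_le_mul_right h1 hc
    have h3 : 101 / c * L ≤ S := (mul_le_mul_of_nonneg_right hK2 (by linarith)).trans s2
    have h4 : Real.exp (3 * L) = S ^ 6 := by
      rw [hSd, ← Real.exp_nat_mul]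
      congr 1
      push_cast
      ring
    rw [h4]
    calc (H : ℝ) ≤ 101 / c * L * S ^ 4 := h2
      _ ≤ S * S ^ 4 := mul_le_mul_of_nonneg_right h3 (by positivity)
      _ = S ^ 5 := by ring
      _ ≤ S ^ 6 := pow_le_pow_right₀ s4 (by norm_num)
  have hGlow : Real.exp (-(3 * L)) ≤ G := by
    have h1 : 1 / c ≤ S := by
      have h2 : 1 / c ≤ 101 / c := by gcongr; norm_num
      linarith
    have h2 : 1 ≤ S * c := by
      rwa [div_le_iff₀ hc] at h1
    have h3 : 1 ≤ G * S ^ 6 := by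
      calc 1 ≤ S * c := h2
        _ ≤ S * (G * S ^ 4) := mul_le_mul_of_nonneg_left hG1 hS0.le
        _ = G * S ^ 5 := by ring
        _ ≤ G * S ^ 6 := mul_le_mul_of_nonneg_left (pow_le_pow_right₀ s4 (by norm_num)) hG0.le
    have h4 : Real.exp (3 * L) = S ^ 6 := by
      rw [hSd, ← Real.exp_nat_mul]
      congr 1
      push_cast
      ring
    rw [Real.exp_neg, h4, inv_le_iff_one_le_mul₀ (by positivity)]
    exact h3
  have hNG : 2 * (N * Real.exp (-(9 * L))) ≤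
      N * G * (2 * (Real.exp (-(1 / 4800 * u)) + 1 / Real.exp L ^ 6)) := by
    rw [h6L]
    have h1 : Real.exp (-(9 * L)) = Real.exp (-(3 * L)) * Real.exp (-(6 * L)) := by
      rw [← Real.exp_add]
      congr 1
      ring
    have h2 : Real.exp (-(3 * L)) * Real.exp (-(6 * L)) ≤ G * Real.exp (-(6 * L)) :=
      mul_le_mul_of_nonneg_right hGlow (Real.exp_pos _).le
    have h3 : 0 ≤ G * Real.exp (-(1 / 4800 * u)) := by positivity
    rw [h1]
    calc 2 * (N * (Real.exp (-(3 * L)) * Real.exp (-(6 * L))))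
        ≤ 2 * (N * (G * Real.exp (-(6 * L)) + G * Real.exp (-(1 / 4800 * u)))) := by
          apply mul_le_mul_of_nonneg_left _ (by norm_num)
          apply mul_le_mul_of_nonneg_left _ hNpos.le
          linarith
      _ = _ := by ring
  -- m
  obtain ⟨m0, hm0⟩ : ∃ m0 : ℕ, m0 = ⌈100 * (C1 + 2) * L ^ 2⌉₊ := ⟨_, rfl⟩
  have hA0 : 0 ≤ 100 * (C1 + 2) * L ^ 2 := by
    have : 0 ≤ C1 + 2 := by linarith
    positivity
  have hm1 : 100 * (C1 + 2) * L ^ 2 ≤ m0 := by rw [hm0]; exact Nat.le_ceil _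
  have hm2 : (m0 : ℝ) ≤ 100 * (C1 + 2) * L ^ 2 + 1 := by
    rw [hm0]
    exact (Nat.ceil_lt_add_one hA0).le
  obtain ⟨m, hm⟩ : ∃ m : ℕ, m = 2 * m0 + 1 := ⟨_, rfl⟩
  have hmr : (m : ℝ) = 2 * m0 + 1 := by rw [hm]; push_cast; ring
  -- J
  obtain ⟨J, hJ1, hJ2⟩ := exists_iter r (Real.exp S) (Real.one_le_exp hS0.le)
  obtain ⟨b, hb⟩ : ∃ b : ℕ, Nat.sqrt^[J] r = b := ⟨_, rfl⟩
  have hbr : b ≤ r := by rw [← hb]; exact Pool.Agent.Helper90.Twin.iterate_sqrt_le J r
  have hbS : S ^ 2 ≤ b := by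
    rcases hJ2 with h | h
    · rw [h] at hb
      have h1 : r = b := hb
      rw [← h1, ← hSS]
      exact hr1
    · rw [hb] at h
      have h1 := Real.pow_div_factorial_le_exp S hS0.le 6
      have h2 : ((Nat.factorial 6 : ℕ) : ℝ) = 720 := by norm_num [Nat.factorial]
      rw [h2] at h1
      have h3 : (S ^ 2 + 1) ^ 2 ≤ S ^ 6 / 720 := by
        rw [le_div_iff₀ (by norm_num)]
        have h4 : 1 ≤ S ^ 2 := one_le_pow₀ s4
        have h5 : (S ^ 2 + 1) ^ 2 ≤ (2 * S ^ 2) ^ 2 := by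
          apply pow_le_pow_left₀ (by positivity)
          linarith
        have h6 : (2880 : ℝ) ≤ S ^ 2 := num2 hS4
        calc (S ^ 2 + 1) ^ 2 * 720 ≤ (2 * S ^ 2) ^ 2 * 720 := by linarith
          _ = S ^ 4 * 2880 := by ring
          _ ≤ S ^ 4 * S ^ 2 := mul_le_mul_of_nonneg_left h6 (by positivity)
          _ = S ^ 6 := by ring
      have h4 : (S ^ 2 + 1) ^ 2 < ((b : ℝ) + 1) ^ 2 := by linarith
      have h5 : S ^ 2 + 1 < (b : ℝ) + 1 := lt_of_pow_lt_pow_left₀ 2 (by positivity) h4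
      linarith
  rw [hb] at hJ1
  have hb0 : (0 : ℝ) ≤ b := Nat.cast_nonneg b
  have hk0 : (0 : ℝ) ≤ k := Nat.cast_nonneg k
  -- the factor in front
  have hW : ((k : ℝ) - 1) * (H : ℝ) ^ (R + 1) ≤ Real.exp (C1 * L + 3 * C1 * L ^ 2) := by
    have g1 : (k : ℝ) - 1 ≤ Real.exp (C1 * L) := by
      have := Real.add_one_le_exp (C1 * L)
      linarith
    have g2 : (H : ℝ) ^ (R + 1) ≤ Real.exp (3 * C1 * L ^ 2) := by
      calc (H : ℝ) ^ (R + 1) ≤ Real.exp (3 * L) ^ (R + 1) := pow_le_pow_left₀ hH0 hHup _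
        _ = Real.exp (((k : ℝ) - 1) * (3 * L)) := by
            rw [← Real.exp_nat_mul]
            push_cast
            rw [hRk]
            congr 1
            ring
        _ ≤ _ := by
            apply Real.exp_le_exp.2
            have g3 : ((k : ℝ) - 1) * (3 * L) ≤ (C1 * L) * (3 * L) :=
              mul_le_mul_of_nonneg_right (by linarith) (by linarith)
            linarith
    rw [Real.exp_add]
    exact mul_le_mul g1 g2 (by positivity) (Real.exp_pos _).le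
  have hP1 : 3 * (N : ℝ) * ((2 * k * Sz b) ^ m / (m.factorial : ℝ)) ≤ 3 * N * Real.exp (-m) := by
    apply mul_le_mul_of_nonneg_left _ (by positivity)
    have hSb : 0 ≤ Sz b := Finset.sum_nonneg fun p _ => by positivity
    apply pow_div_fac (by positivity)
    have g1 : Sz b ≤ 6 * L := (Sz_mono (hbr.trans hrZ)).trans hSz
    have g2 : 2 * (k : ℝ) * Sz b ≤ 2 * (C1 * L) * (6 * L) := by gcongr
    have g3 : 0 ≤ 2 * (k : ℝ) * Sz b := by positivity
    have g4 : Real.exp 2 * (2 * (k : ℝ) * Sz b) ≤ 8 * (2 * (C1 * L) * (6 * L)) :=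
      mul_le_mul exp_two_le g2 g3 (by norm_num)
    exact g4.trans (num3 hC1' hm1 hmr)
  have hP2 : (1 + 2 * (k : ℝ) * b) ^ m * (r : ℝ) ^ (4 * (300 * k + 1) + 9) ≤
      Real.exp (S ^ 2 / 100 + (n / 2 + n / 2000)) := by
    have g1 : 1 + 2 * (k : ℝ) * b ≤ Real.exp (2 * S) := by
      have g2 : 1 + 2 * (k : ℝ) * b ≤ (2 * k + 1) * Real.exp S := by
        have g3 : 2 * (k : ℝ) * b ≤ 2 * k * Real.exp S := by gcongr
        have g4 : 1 ≤ Real.exp S := Real.one_le_exp hS0.le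
        linarith
      have g3 : 2 * (k : ℝ) + 1 ≤ Real.exp (2 * k) := Real.add_one_le_exp _
      have g4 : 2 * (k : ℝ) ≤ S := by
        have g5 := num4 hC1' hL1 hK41
        linarith
      calc 1 + 2 * (k : ℝ) * b ≤ (2 * k + 1) * Real.exp S := g2
        _ ≤ Real.exp (2 * k) * Real.exp S := mul_le_mul_of_nonneg_right g3 (Real.exp_pos _).le
        _ = Real.exp (2 * k + S) := by rw [Real.exp_add]
        _ ≤ _ := by
            apply Real.exp_le_exp.2
            linarith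
    have g2 : (1 + 2 * (k : ℝ) * b) ^ m ≤ Real.exp (S ^ 2 / 100) := by
      calc (1 + 2 * (k : ℝ) * b) ^ m ≤ Real.exp (2 * S) ^ m :=
            pow_le_pow_left₀ (by positivity) g1 _
        _ = Real.exp (m * (2 * S)) := by rw [← Real.exp_nat_mul]
        _ ≤ _ := by
            apply Real.exp_le_exp.2
            exact num6 (num5 hL1 hm2 hmr hK40) hS0.le
    have g3 : (r : ℝ) ^ (4 * (300 * k + 1) + 9) ≤ Real.exp (n / 2 + n / 2000) := by
      rw [hre, ← Real.exp_nat_mul]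
      apply Real.exp_le_exp.2
      push_cast
      have g4 : (4 * (300 * (k : ℝ) + 1) + 9) * ρ ≤ (u / 2 + 13) * ρ :=
        mul_le_mul_of_nonneg_right (by linarith) hρ0.le
      have g5 : 33600 * ρ ≤ u * ρ := mul_le_mul_of_nonneg_right hu1 hρ0.le
      rw [hnu]
      linarith
    rw [Real.exp_add]
    exact mul_le_mul g2 g3 (by positivity) (Real.exp_pos _).le
  have hE1 : Real.exp (C1 * L + 3 * C1 * L ^ 2) * (3 * N * Real.exp (-m)) ≤
      N * Real.exp (-(9 * L)) := by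
    have g1 : 3 * (Real.exp (C1 * L + 3 * C1 * L ^ 2) * Real.exp (-m)) ≤ Real.exp (-(9 * L)) := by
      calc 3 * (Real.exp (C1 * L + 3 * C1 * L ^ 2) * Real.exp (-m))
          ≤ Real.exp 2 * (Real.exp (C1 * L + 3 * C1 * L ^ 2) * Real.exp (-m)) :=
            mul_le_mul_of_nonneg_right (by linarith) (by positivity)
        _ = Real.exp (2 + (C1 * L + 3 * C1 * L ^ 2 + -m)) := by
            rw [Real.exp_add 2, Real.exp_add (C1 * L + 3 * C1 * L ^ 2) (-(m : ℝ))]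
        _ ≤ _ := by
            apply Real.exp_le_exp.2
            exact num7 hC1' hL1 hm1 hmr
    calc Real.exp (C1 * L + 3 * C1 * L ^ 2) * (3 * N * Real.exp (-m))
        = N * (3 * (Real.exp (C1 * L + 3 * C1 * L ^ 2) * Real.exp (-m))) := by ring
      _ ≤ _ := mul_le_mul_of_nonneg_left g1 hNpos.le
  have hCL : C1 * L + 3 * C1 * L ^ 2 + 9 * L ≤ n / 50 := by
    have g3 := num8 hC1' hL1 hK40
    linarith
  have hE2 : Real.exp (C1 * L + 3 * C1 * L ^ 2) * Real.exp (S ^ 2 / 100 + (n / 2 + n / 2000)) ≤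
      N * Real.exp (-(9 * L)) := by
    rw [hNe, ← Real.exp_add, ← Real.exp_add]
    apply Real.exp_le_exp.2
    linarith
  refine ⟨J, R, m, 300 * k + 1, ⟨m0, hm⟩, ⟨150 * k, by ring⟩, ?_, ?_, ?_, ?_, ?_, ?_, ?_, ?_⟩
  · rw [hb, hR]
    have g1 : ((4 * k + 2 : ℕ) : ℝ) ≤ b := by
      push_cast
      have g2 := num4 hC1' hL1 hK41
      linarith
    exact_mod_cast g1
  · rw [hR]
    exact hsg2
  · rw [hR]
    have g1 : ((2 * k : ℕ) : ℝ) ≤ ((3 * H + 1 : ℕ) : ℝ) := by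
      push_cast
      linarith
    exact_mod_cast g1
  · have g1 : ((3 * H + 1 : ℕ) : ℝ) ≤ (Z : ℝ) := by
      push_cast
      rw [hZe, hSS]
      have g2 := Real.pow_div_factorial_le_exp (S ^ 2) (by positivity) 4
      have g3 : ((Nat.factorial 4 : ℕ) : ℝ) = 24 := by norm_num [Nat.factorial]
      rw [g3] at g2
      have g4 : Real.exp (3 * L) = S ^ 6 := by
        rw [hSd, ← Real.exp_nat_mul]
        congr 1
        push_cast
        ring
      rw [g4] at hHup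
      have g5 : 1 ≤ S ^ 6 := one_le_pow₀ s4
      have g6 : 4 * S ^ 6 ≤ (S ^ 2) ^ 4 / 24 := by
        rw [le_div_iff₀ (by norm_num)]
        have g7 : (96 : ℝ) ≤ S ^ 2 := by linarith [num2 hS4]
        calc 4 * S ^ 6 * 24 = S ^ 6 * 96 := by ring
          _ ≤ S ^ 6 * S ^ 2 := mul_le_mul_of_nonneg_left g7 (by positivity)
          _ = (S ^ 2) ^ 4 := by ring
      linarith
    exact_mod_cast g1
  · rw [hR]
    refine le_trans ?_ hke'
    have g1 : C0 * lam ≤ Real.exp 2 * C0 * lam := by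
      have g2 : 0 ≤ C0 * lam := by positivity
      calc C0 * lam ≤ Real.exp 2 * (C0 * lam) := num9 g2 he2'
        _ = _ := by ring
    calc sgm k (300 * k + 1) * Real.exp (C0 * lam)
        ≤ Real.exp (-(228 * k)) * Real.exp ((k : ℝ) - 1) :=
          mul_le_mul hsg (Real.exp_le_exp.2 (by linarith)) (Real.exp_pos _).le (Real.exp_pos _).le
      _ = Real.exp (-(228 * k) + ((k : ℝ) - 1)) := by rw [Real.exp_add]
      _ ≤ _ := by
          apply Real.exp_le_exp.2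
          linarith
  · refine le_trans ?_ hke'
    have g1 := pow_div_fac (a := C0 * lam) (by positivity) (k := R + 1) (by
      push_cast
      rw [hRk]
      linarith)
    refine g1.trans (Real.exp_le_exp.2 ?_)
    push_cast
    rw [hRk]
    linarith
  · refine le_trans ?_ hNG
    rw [hR, hb]
    have g0 : (R : ℝ) + 1 = (k : ℝ) - 1 := by rw [hRk]; ring
    rw [g0]
    unfold errU
    have g1 : 0 ≤ ((k : ℝ) - 1) * (H : ℝ) ^ (R + 1) :=
      mul_nonneg (by linarith) (by positivity)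
    have g2 : 3 * (N : ℝ) * ((2 * k * Sz b) ^ m / (m.factorial : ℝ)) +
        (1 + 2 * (k : ℝ) * b) ^ m * (r : ℝ) ^ (4 * (300 * k + 1) + 9) ≤
        3 * N * Real.exp (-m) + Real.exp (S ^ 2 / 100 + (n / 2 + n / 2000)) := add_le_add hP1 hP2
    have g3 : 0 ≤ 3 * (N : ℝ) * Real.exp (-m) + Real.exp (S ^ 2 / 100 + (n / 2 + n / 2000)) := by
      positivity
    calc ((k : ℝ) - 1) * (H : ℝ) ^ (R + 1) * (3 * (N : ℝ) * ((2 * k * Sz b) ^ m / (m.factorial : ℝ)) +
        (1 + 2 * (k : ℝ) * b) ^ m * (r : ℝ) ^ (4 * (300 * k + 1) + 9))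
        ≤ ((k : ℝ) - 1) * (H : ℝ) ^ (R + 1) *
          (3 * N * Real.exp (-m) + Real.exp (S ^ 2 / 100 + (n / 2 + n / 2000))) :=
          mul_le_mul_of_nonneg_left g2 g1
      _ ≤ Real.exp (C1 * L + 3 * C1 * L ^ 2) *
          (3 * N * Real.exp (-m) + Real.exp (S ^ 2 / 100 + (n / 2 + n / 2000))) :=
          mul_le_mul_of_nonneg_right hW g3
      _ ≤ _ := by
          rw [mul_add]
          linarith
  · refine le_trans ?_ hNG
    have g1 : N * Real.exp (-(9 * L)) = Real.exp (n + -(9 * L)) := by rw [hNe, Real.exp_add]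
    rw [g1]
    have g2 : 1 ≤ Real.exp (n + -(9 * L)) := by
      apply Real.one_le_exp
      have g3 : 0 ≤ C1 * L := by positivity
      have g4 : 0 ≤ 3 * C1 * L ^ 2 := by positivity
      linarith
    linarith

end Pool.Agent.Helper79.TB
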